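import Mathlib

set_option autoImplicit false

namespace Pool.Agent.W_MP_f6eb07_gt

open Cardinal Set

universe u

/-- two conditions are compatible if they have a common extension -/
def Compatible {P : Type u} [PartialOrder P] (p q : P) : Prop := ∃ r, r ≤ p ∧ r ≤ q

/-- the countable chain condition: every set of pairwise incompatible conditions is countable -/
def CCC (P : Type u) [PartialOrder P] : Prop :=
  ∀ S : Set P, (∀ p ∈ S, ∀ q ∈ S, p ≠ q → ¬ Compatible p q) → S.Countable

/-- filters in a partial order -/
structure IsFilter {P : Type u} [PartialOrder P] (G : Set P) : Prop where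
  nonempty : G.Nonempty
  up : ∀ p ∈ G, ∀ q, p ≤ q → q ∈ G
  directed : ∀ p ∈ G, ∀ q ∈ G, ∃ r ∈ G, r ≤ p ∧ r ≤ q

/-- Martin's axiom: for every nonempty partial order with the countable chain condition and every
family of fewer than continuum many dense sets there is a filter that meets all of them. -/
def MartinsAxiom : Prop :=
  ∀ (P : Type) [PartialOrder P] [Nonempty P], CCC P → ∀ 𝒟 : Set (Set P), #𝒟 < 𝔠 →
    (∀ D ∈ 𝒟, ∀ p : P, ∃ q ∈ D, q ≤ p) → ∃ G : Set P, IsFilter G ∧ ∀ D ∈ 𝒟, (G ∩ D).Nonempty

/-- the space of continuous real functions with the topology of pointwise convergence (the subspace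
topology inherited from the product) -/
abbrev Cp (X : Type u) [TopologicalSpace X] : Type u := {f : X → ℝ // Continuous f}

/-- the spread -/
noncomputable def spread (Z : Type u) [TopologicalSpace Z] : Cardinal.{u} :=
  ℵ₀ + ⨆ D : {D : Set Z // DiscreteTopology D}, #D.1

/-- the tightness -/
noncomputable def tightness (X : Type u) [TopologicalSpace X] : Cardinal.{u} :=
  sInf {κ | ℵ₀ ≤ κ ∧ ∀ (A : Set X) (x : X), x ∈ closure A → ∃ B ⊆ A, #B ≤ κ ∧ x ∈ closure B}

end Pool.Agent.W_MP_f6eb07_gt
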