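import Pool.Agent.W_MP_f6eb07_gt.Defs

set_option autoImplicit false

namespace Pool.Agent.W_MP_f6eb07_gt

open Cardinal Set

universe u v

/-! ### The index set -/

/-- the first uncountable ordinal as a type -/
abbrev Om : Type := (Cardinal.aleph 1).ord.ToType

theorem Iio_countable (i : Om) : (Set.Iio i).Countable := by
  rw [Cardinal.countable_iff_lt_aleph_one]
  exact Cardinal.mk_Iio_toType_ord_lt i

theorem Iic_countable (i : Om) : (Set.Iic i).Countable := by
  have : Set.Iic i = insert i (Set.Iio i) := by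
    ext j; simp [le_iff_eq_or_lt]
  rw [this]
  exact (Iio_countable i).insert i

theorem mk_Om : #Om = Cardinal.aleph 1 := by simp [Om]

theorem Om_uncountable : ¬ Countable Om := by
  rw [← Cardinal.mk_le_aleph0_iff, mk_Om]
  exact not_le.mpr Cardinal.aleph0_lt_aleph_one

theorem univ_not_countable : ¬ (Set.univ : Set Om).Countable := by
  rw [Set.countable_univ_iff]
  exact Om_uncountable

theorem exists_gt (C : Set Om) (hC : C.Countable) : ∃ j, ∀ i ∈ C, i < j := by
  by_contra h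
  push Not at h
  apply univ_not_countable
  have : (Set.univ : Set Om) ⊆ ⋃ i ∈ C, Set.Iic i := by
    intro j _
    obtain ⟨i, hi, hij⟩ := h j
    simp only [Set.mem_iUnion]
    exact ⟨i, hi, hij⟩
  exact (hC.biUnion fun i _ => Iic_countable i).mono this

theorem uncountable_of_unbounded {H : Set Om} (h : ∀ δ, ∃ i ∈ H, δ < i) : ¬ H.Countable := by
  intro hH
  obtain ⟨j, hj⟩ := exists_gt H hH
  obtain ⟨i, hi, hij⟩ := h j
  exact absurd (hj i hi) (not_lt.mpr hij.le)

/-- recursion along `Om` -/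
theorem exists_seq {Y : Type v} (T : Set Y) (R : Set Y → Y → Prop)
    (h : ∀ C : Set Y, C ⊆ T → C.Countable → ∃ y ∈ T, R C y) :
    ∃ s : Om → Y, ∀ i, s i ∈ T ∧ R (s '' Set.Iio i) (s i) := by
  classical
  obtain ⟨y₀, -, -⟩ := h ∅ (Set.empty_subset _) Set.countable_empty
  let F : Set Y → Y := fun C => if hC : C ⊆ T ∧ C.Countable then (h C hC.1 hC.2).choose else y₀
  have hF : ∀ C : Set Y, C ⊆ T → C.Countable → F C ∈ T ∧ R C (F C) := by
    intro C h1 h2
    have : F C = (h C h1 h2).choose := dif_pos ⟨h1, h2⟩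
    rw [this]
    exact (h C h1 h2).choose_spec
  let s : Om → Y := WellFounded.fix (C := fun _ => Y) (wellFounded_lt (α := Om))
    (fun i rec => F {y | ∃ j, ∃ hj : j < i, rec j hj = y})
  have hs : ∀ i, s i = F (s '' Set.Iio i) := by
    intro i
    show WellFounded.fix _ _ i = _
    rw [WellFounded.fix_eq]
    congr 1
    ext y
    simp only [Set.mem_setOf_eq, Set.mem_image, Set.mem_Iio, exists_prop]
    exact Iff.rfl
  refine ⟨s, fun i => ?_⟩
  have hT : ∀ i, s i ∈ T := by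
    intro i
    induction i using WellFounded.induction (wellFounded_lt (α := Om)) with
    | _ i ih =>
      rw [hs]
      refine (hF _ ?_ ((Iio_countable i).image s)).1
      rintro _ ⟨j, hj, rfl⟩
      exact ih j hj
  refine ⟨hT i, ?_⟩
  have := (hF (s '' Set.Iio i) (by rintro _ ⟨j, _, rfl⟩; exact hT j) ((Iio_countable i).image s)).2
  rw [← hs] at this
  exact this

/-! ### Countable spread -/

/-- every discrete subspace is countable -/
def CSpread (Z : Type u) [TopologicalSpace Z] : Prop :=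
  ∀ D : Set Z, DiscreteTopology D → D.Countable

theorem cSpread_of_spread {Z : Type u} [TopologicalSpace Z] (h : spread Z = ℵ₀) : CSpread Z := by
  intro D hD
  have h1 : #D ≤ ⨆ D : {D : Set Z // DiscreteTopology D}, #D.1 :=
    le_ciSup (f := fun D : {D : Set Z // DiscreteTopology D} => #D.1) (Cardinal.bddAbove_range _)
      ⟨D, hD⟩
  have h2 : #D ≤ spread Z := h1.trans (self_le_add_left _ _)
  rw [h] at h2
  exact Cardinal.le_aleph0_iff_set_countable.mp h2

theorem tightness_eq {X : Type u} [TopologicalSpace X]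
    (h : ∀ (A : Set X) (x : X), x ∈ closure A → ∃ B ⊆ A, B.Countable ∧ x ∈ closure B) :
    tightness X = ℵ₀ := by
  apply le_antisymm
  · refine csInf_le' ⟨le_rfl, fun A x hx => ?_⟩
    obtain ⟨B, hB, hc, hx⟩ := h A x hx
    exact ⟨B, hB, Cardinal.le_aleph0_iff_set_countable.mpr hc, hx⟩
  · refine le_csInf ⟨ℵ₀, le_rfl, fun A x hx => ?_⟩ fun κ hκ => hκ.1
    obtain ⟨B, hB, hc, hx⟩ := h A x hx
    exact ⟨B, hB, Cardinal.le_aleph0_iff_set_countable.mpr hc, hx⟩

/-- A family with separating open sets contradicts countable spread if it is uncountable. -/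
theorem no_discrete {Z : Type u} [TopologicalSpace Z] (hZ : CSpread Z) {J : Type v} (H : Set J)
    (g : J → Z) (W : J → Set Z) (hW : ∀ j ∈ H, IsOpen (W j)) (h1 : ∀ j ∈ H, g j ∈ W j)
    (h2 : ∀ i ∈ H, ∀ j ∈ H, g i ∈ W j → i = j) : H.Countable := by
  have hinj : Set.InjOn g H := by
    intro i hi j hj hij
    apply h2 i hi j hj
    rw [hij]
    exact h1 j hj
  have hD : DiscreteTopology (g '' H) := by
    rw [discreteTopology_iff_isOpen_singleton]
    rintro ⟨_, j, hj, rfl⟩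
    refine ⟨W j, hW j hj, ?_⟩
    ext ⟨_, i, hi, rfl⟩
    constructor
    · intro h
      exact Subtype.ext (congrArg g (h2 i hi j hj h))
    · intro h
      have h' : g i = g j := congrArg Subtype.val h
      show g i ∈ W j
      rw [h']
      exact h1 j hj
  have := hZ _ hD
  exact Set.countable_of_injective_of_countable_image hinj this

section Main

variable {X : Type u} [TopologicalSpace X] (f : Om → Cp X) (a : Om → X)

/-- the good finite sets -/
def Good (p : Finset Om) : Prop := ∀ β ∈ p, ∀ α ∈ p, β < α → (f β).1 (a α) ≤ 1 / 2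

theorem isOpen_gt (x : X) : IsOpen {h : Cp X | 1 / 2 < h.1 x} :=
  isOpen_lt continuous_const ((continuous_apply x).comp continuous_subtype_val)

theorem isOpen_lt' (x : X) : IsOpen {h : Cp X | h.1 x < 1 / 2} :=
  isOpen_lt ((continuous_apply x).comp continuous_subtype_val) continuous_const

/-- the maximum of finitely many of the functions -/
noncomputable def mx (q : Finset Om) (hq : q.Nonempty) : Cp X :=
  ⟨q.sup' hq (fun β => (f β).1), Continuous.finset_sup' hq (fun β _ => (f β).2)⟩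

theorem mx_apply (q : Finset Om) (hq : q.Nonempty) (x : X) :
    (mx f q hq).1 x = q.sup' hq (fun β => (f β).1 x) := by
  show (q.sup' hq (fun β => (f β).1)) x = _
  rw [Finset.sup'_apply]

theorem lt_mx {q : Finset Om} (hq : q.Nonempty) {x : X} {β : Om} (hβ : β ∈ q)
    (h : 1 / 2 < (f β).1 x) : 1 / 2 < (mx f q hq).1 x := by
  rw [mx_apply, Finset.lt_sup'_iff]
  exact ⟨β, hβ, h⟩

theorem mx_lt {q : Finset Om} (hq : q.Nonempty) {x : X}
    (h : ∀ β ∈ q, (f β).1 x < 1 / 2) : (mx f q hq).1 x < 1 / 2 := by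
  rw [mx_apply, Finset.sup'_lt_iff]
  exact h

/-- the forcing notion -/
structure Pos (f : Om → Cp X) (a : Om → X) : Type where
  s : Finset Om
  good : Good f a s

instance : PartialOrder (Pos f a) where
  le p q := q.s ⊆ p.s
  le_refl p := Finset.Subset.refl _
  le_trans p q r h1 h2 := Finset.Subset.trans h2 h1
  le_antisymm p q h1 h2 := by
    cases p; cases q
    congr
    exact Finset.Subset.antisymm h2 h1

theorem le_iff {p q : Pos f a} : p ≤ q ↔ q.s ⊆ p.s := Iff.rfl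

theorem Good.mono {p q : Finset Om} (h : Good f a p) (hq : q ⊆ p) : Good f a q :=
  fun β hβ α hα => h β (hq hβ) α (hq hα)

theorem not_good_union {p q : Pos f a} (h : ¬ Compatible p q) : ¬ Good f a (p.s ∪ q.s) := by
  intro hg
  exact h ⟨⟨p.s ∪ q.s, hg⟩, Finset.subset_union_left, Finset.subset_union_right⟩

/-- Under countable spread the forcing notion has the countable chain condition. -/
theorem ccc (hX : CSpread (Cp X)) (hf0 : ∀ β α, β < α → (f α).1 (a β) = 0)
    (hf1 : ∀ α, 1 / 2 < (f α).1 (a α)) : CCC (Pos f a) := by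
  classical
  intro S hS
  by_contra hunc
  -- bounded cardinality
  obtain ⟨n, hn⟩ : ∃ n : ℕ, ¬ {p ∈ S | p.s.card = n}.Countable := by
    by_contra h
    push Not at h
    apply hunc
    have : S ⊆ ⋃ n : ℕ, {p ∈ S | p.s.card = n} := by
      intro p hp
      simp only [Set.mem_iUnion]
      exact ⟨p.s.card, hp, rfl⟩
    exact (Set.countable_iUnion h).mono this
  -- the root
  have hroot : ∃ k, k ≤ n ∧ (∃ r : Finset Om, r.card = k ∧
      ¬ {p ∈ S | p.s.card = n ∧ r ⊆ p.s}.Countable) ∧ ∀ k', k < k' → ¬ ∃ r : Finset Om, r.card = k' ∧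
      ¬ {p ∈ S | p.s.card = n ∧ r ⊆ p.s}.Countable := by
    have hbd : ∀ k, (∃ r : Finset Om, r.card = k ∧
        ¬ {p ∈ S | p.s.card = n ∧ r ⊆ p.s}.Countable) → k ≤ n := by
      rintro k ⟨r, rfl, hr⟩
      have hne : {p ∈ S | p.s.card = n ∧ r ⊆ p.s}.Nonempty := by
        by_contra he
        rw [Set.not_nonempty_iff_eq_empty] at he
        rw [he] at hr
        exact hr Set.countable_empty
      obtain ⟨p, hp, hpn, hrp⟩ := hne
      rw [← hpn]
      exact Finset.card_le_card hrp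
    have h0 : ∃ k, ∃ r : Finset Om, r.card = k ∧ ¬ {p ∈ S | p.s.card = n ∧ r ⊆ p.s}.Countable := by
      refine ⟨0, ∅, rfl, ?_⟩
      simpa using hn
    obtain ⟨k₀, hk₀⟩ := h0
    refine ⟨Nat.findGreatest (fun k => ∃ r : Finset Om, r.card = k ∧
      ¬ {p ∈ S | p.s.card = n ∧ r ⊆ p.s}.Countable) n, Nat.findGreatest_le n, ?_, ?_⟩
    · exact Nat.findGreatest_spec (P := fun k => ∃ r : Finset Om, r.card = k ∧
        ¬ {p ∈ S | p.s.card = n ∧ r ⊆ p.s}.Countable) (hbd k₀ hk₀) hk₀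
    · intro k' hk' hex
      have := Nat.le_findGreatest (P := fun k => ∃ r : Finset Om, r.card = k ∧
        ¬ {p ∈ S | p.s.card = n ∧ r ⊆ p.s}.Countable) (hbd k' hex) hex
      omega
  obtain ⟨k, -, ⟨r, hrk, hr⟩, hmax⟩ := hroot
  set Sr : Set (Pos f a) := {p ∈ S | p.s.card = n ∧ r ⊆ p.s} with hSr
  have hpt : ∀ i, i ∉ r → {p ∈ Sr | i ∈ p.s}.Countable := by
    intro i hi
    by_contra h
    apply hmax (k + 1) (Nat.lt_succ_self k)
    refine ⟨insert i r, by rw [Finset.card_insert_of_notMem hi, hrk], ?_⟩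
    intro hc
    apply h
    refine hc.mono ?_
    rintro p ⟨⟨hp, hpn, hrp⟩, hip⟩
    exact ⟨hp, hpn, Finset.insert_subset hip hrp⟩
  -- the blocks beyond a given bound
  have hbeyond : ∀ δ : Om, ∃ p ∈ Sr, (∀ i ∈ p.s \ r, δ < i) ∧ (p.s \ r).Nonempty := by
    intro δ
    by_contra h
    push Not at h
    apply hr
    have hsub : Sr ⊆ (⋃ i ∈ {i | i ≤ δ ∧ i ∉ r}, {p ∈ Sr | i ∈ p.s}) ∪ {p ∈ Sr | p.s = r} := by
      intro p hp
      by_cases h1 : ∀ i ∈ p.s \ r, δ < i
      · right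
        have h2 := h p hp h1
        refine ⟨hp, Finset.Subset.antisymm ?_ hp.2.2⟩
        rw [← Finset.sdiff_eq_empty_iff_subset]
        simpa using h2
      · left
        push Not at h1
        obtain ⟨i, hi, hiδ⟩ := h1
        rw [Finset.mem_sdiff] at hi
        simp only [Set.mem_iUnion]
        exact ⟨i, ⟨hiδ, hi.2⟩, hp, hi.1⟩
    refine Set.Countable.mono hsub (Set.Countable.union ?_ ?_)
    · refine Set.Countable.biUnion ((Iic_countable δ).mono fun i hi => hi.1) fun i hi => hpt i hi.2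
    · refine Set.Subsingleton.countable ?_
      rintro p ⟨-, hp⟩ q ⟨-, hq⟩
      cases p; cases q
      simp only at hp hq
      congr
      rw [hp, hq]
  -- the double sequence
  obtain ⟨s, hs⟩ := exists_seq (Y := Pos f a × Pos f a)
    {y | (y.1 ∈ Sr ∧ y.2 ∈ Sr) ∧ ((y.1.s \ r).Nonempty ∧ (y.2.s \ r).Nonempty) ∧
      ∀ i ∈ y.1.s \ r, ∀ j ∈ y.2.s \ r, i < j}
    (fun C y => ∀ y' ∈ C, ∀ i, (i ∈ y'.1.s ∨ i ∈ y'.2.s) → ∀ j, (j ∈ y.1.s \ r ∨ j ∈ y.2.s \ r) → i < j)
    (by
      intro C _ hC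
      have hCc : {i : Om | ∃ y' ∈ C, i ∈ y'.1.s ∨ i ∈ y'.2.s}.Countable := by
        have : {i : Om | ∃ y' ∈ C, i ∈ y'.1.s ∨ i ∈ y'.2.s} =
            ⋃ y' ∈ C, ((y'.1.s ∪ y'.2.s : Finset Om) : Set Om) := by
          ext i
          simp
        rw [this]
        exact hC.biUnion fun y' _ => Finset.countable_toSet _
      obtain ⟨δ, hδ⟩ := exists_gt _ hCc
      obtain ⟨p, hp, hp1, hp2⟩ := hbeyond δ
      obtain ⟨ε, hε⟩ := exists_gt ((insert δ p.s : Finset Om) : Set Om) (Finset.countable_toSet _)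
      obtain ⟨q, hq, hq1, hq2⟩ := hbeyond ε
      refine ⟨(p, q), ⟨⟨hp, hq⟩, ⟨hp2, hq2⟩, ?_⟩, ?_⟩
      · intro i hi j hj
        have h1 : i < ε := hε i (by simp [(Finset.mem_sdiff.mp hi).1])
        exact h1.trans (hq1 j hj)
      · intro y' hy' i hi j hj
        have h1 : i < δ := hδ i ⟨y', hy', hi⟩
        rcases hj with hj | hj
        · exact h1.trans (hp1 j hj)
        · exact (h1.trans (hε δ (by simp))).trans (hq1 j hj))
  -- the blocks
  have hord : ∀ ζ ξ : Om, ζ < ξ → ∀ i, (i ∈ (s ζ).1.s ∨ i ∈ (s ζ).2.s) → ∀ j,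
      (j ∈ (s ξ).1.s \ r ∨ j ∈ (s ξ).2.s \ r) → i < j := by
    intro ζ ξ h
    exact (hs ξ).2 (s ζ) ⟨ζ, h, rfl⟩
  have hne2 : ∀ ξ, ((s ξ).2.s \ r).Nonempty := fun ξ => (hs ξ).1.2.1.2
  -- incompatible blocks
  have hinc : ∀ p ∈ Sr, ∀ q ∈ Sr, p ≠ q → (∀ i ∈ p.s \ r, ∀ j ∈ q.s \ r, i < j) →
      ∃ β ∈ p.s \ r, ∃ α ∈ q.s \ r, 1 / 2 < (f β).1 (a α) := by
    intro p hp q hq hpq hlt
    have h1 := not_good_union f a (hS p hp.1 q hq.1 hpq)
    unfold Good at h1
    push Not at h1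
    obtain ⟨β, hβ, α, hα, hβα, hbig⟩ := h1
    by_cases hβp : β ∈ p.s
    · by_cases hαp : α ∈ p.s
      · exact absurd (p.good β hβp α hαp hβα) (not_le.mpr hbig)
      · have hαq : α ∈ q.s := by
          rw [Finset.mem_union] at hα
          tauto
        by_cases hβq : β ∈ q.s
        · exact absurd (q.good β hβq α hαq hβα) (not_le.mpr hbig)
        · refine ⟨β, ?_, α, ?_, hbig⟩
          · rw [Finset.mem_sdiff]
            exact ⟨hβp, fun h => hβq (hq.2.2 h)⟩
          · rw [Finset.mem_sdiff]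
            exact ⟨hαq, fun h => hαp (hp.2.2 h)⟩
    · have hβq : β ∈ q.s := by
        rw [Finset.mem_union] at hβ
        tauto
      by_cases hαq : α ∈ q.s
      · exact absurd (q.good β hβq α hαq hβα) (not_le.mpr hbig)
      · have hαp : α ∈ p.s := by
          rw [Finset.mem_union] at hα
          tauto
        exfalso
        have h2 : α < β := hlt α (by rw [Finset.mem_sdiff]; exact ⟨hαp, fun h => hαq (hq.2.2 h)⟩)
          β (by rw [Finset.mem_sdiff]; exact ⟨hβq, fun h => hβp (hp.2.2 h)⟩)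
        exact absurd h2 (not_lt.mpr hβα.le)
  have hneq : ∀ p q : Pos f a, (q.s \ r).Nonempty → (∀ i ∈ p.s \ r, ∀ j ∈ q.s \ r, i < j) → p ≠ q := by
    rintro p q ⟨j, hj⟩ hlt rfl
    exact absurd (hlt j hj j hj) (lt_irrefl _)
  -- the discrete family
  let g : Om → Cp X := fun ξ => mx f ((s ξ).2.s \ r) (hne2 ξ)
  have key : (Set.univ : Set Om).Countable := by
    refine no_discrete hX Set.univ g (fun ξ => (⋃ α ∈ (s ξ).2.s \ r, {h : Cp X | 1 / 2 < h.1 (a α)}) ∩
      ⋂ α ∈ (s ξ).1.s \ r, {h : Cp X | h.1 (a α) < 1 / 2}) ?_ ?_ ?_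
    · intro ξ _
      refine IsOpen.inter (isOpen_biUnion fun α _ => isOpen_gt (a α)) ?_
      exact isOpen_biInter_finset fun α _ => isOpen_lt' (a α)
    · intro ξ _
      refine ⟨?_, ?_⟩
      · obtain ⟨α, hα⟩ := hne2 ξ
        simp only [Set.mem_iUnion]
        exact ⟨α, hα, lt_mx f (hne2 ξ) hα (hf1 α)⟩
      · simp only [Set.mem_iInter]
        intro α hα
        refine mx_lt f (hne2 ξ) fun β hβ => ?_
        rw [hf0 α β ((hs ξ).1.2.2 α hα β hβ)]
        norm_num
    · intro ζ _ ξ _ hζ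
      obtain ⟨h1, h2⟩ := hζ
      simp only [Set.mem_iUnion, Set.mem_iInter] at h1 h2
      rcases lt_trichotomy ζ ξ with hlt | heq | hgt
      · exfalso
        have hlt' : ∀ i ∈ (s ζ).2.s \ r, ∀ j ∈ (s ξ).1.s \ r, i < j := fun i hi j hj =>
          hord ζ ξ hlt i (Or.inr (Finset.mem_sdiff.mp hi).1) j (Or.inl hj)
        obtain ⟨β, hβ, α, hα, hbig⟩ := hinc _ (hs ζ).1.1.2 _ (hs ξ).1.1.1
          (hneq _ _ (hs ξ).1.2.1.1 hlt') hlt'
        have h3 := h2 α hα
        have h4 := lt_mx f (hne2 ζ) hβ hbig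
        exact absurd (show (g ζ).1 (a α) < 1 / 2 from h3) (not_lt.mpr h4.le)
      · exact heq
      · exfalso
        obtain ⟨α, hα, h3⟩ := h1
        have h4 : (g ζ).1 (a α) < 1 / 2 := by
          refine mx_lt f (hne2 ζ) fun β hβ => ?_
          rw [hf0 α β (hord ξ ζ hgt α (Or.inr (Finset.mem_sdiff.mp hα).1) β (Or.inr hβ))]
          norm_num
        exact absurd h4 (not_lt.mpr (le_of_lt h3))
  exact univ_not_countable key

/-- Under the countable chain condition some condition forces the generic set to be unbounded. -/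
theorem exists_cond (hc : CCC (Pos f a)) :
    ∃ p : Pos f a, ∀ q ≤ p, ∀ δ : Om, ∃ r ≤ q, ∃ α ∈ r.s, δ < α := by
  by_contra h
  push Not at h
  choose Q hQ D hD using h
  let sing : Om → Pos f a := fun γ => ⟨{γ}, by
    intro β hβ α hα hlt
    rw [Finset.mem_singleton] at hβ hα
    rw [hβ, hα] at hlt
    exact absurd hlt (lt_irrefl _)⟩
  obtain ⟨s, hs⟩ := exists_seq (Y := Om) Set.univ (fun C γ => ∀ γ' ∈ C, D (sing γ') < γ) (by
    intro C _ hC
    obtain ⟨γ, hγ⟩ := exists_gt ((fun γ' => D (sing γ')) '' C) (hC.image _)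
    exact ⟨γ, trivial, fun γ' hγ' => hγ _ ⟨γ', hγ', rfl⟩⟩)
  have hlt : ∀ i j, i < j → D (sing (s i)) < s j := fun i j hij => (hs j).2 (s i) ⟨i, hij, rfl⟩
  have hinc : ∀ i j, i < j → ¬ Compatible (Q (sing (s i))) (Q (sing (s j))) := by
    rintro i j hij ⟨r, hr1, hr2⟩
    have h1 : s j ∈ r.s := by
      have h2 : s j ∈ (sing (s j)).s := Finset.mem_singleton_self _
      exact hr2 (hQ (sing (s j)) h2)
    have h3 := hD (sing (s i)) r hr1 (s j) h1
    exact absurd (hlt i j hij) (not_lt.mpr h3)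
  have hinc' : ∀ i j, i ≠ j → ¬ Compatible (Q (sing (s i))) (Q (sing (s j))) := by
    intro i j hij
    rcases lt_or_gt_of_ne hij with h1 | h1
    · exact hinc i j h1
    · rintro ⟨r, hr1, hr2⟩
      exact hinc j i h1 ⟨r, hr2, hr1⟩
  have hinj : Function.Injective (fun i => Q (sing (s i))) := by
    intro i j hij
    by_contra hne
    apply hinc' i j hne
    have hij' : Q (sing (s i)) = Q (sing (s j)) := hij
    rw [hij']
    exact ⟨_, le_refl _, le_refl _⟩
  have hcount := hc (Set.range fun i => Q (sing (s i))) (by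
    rintro _ ⟨i, rfl⟩ _ ⟨j, rfl⟩ hne
    exact hinc' i j fun h => hne (by rw [h]))
  have := Set.countable_of_injective_of_countable_image (s := Set.univ)
    (f := fun i => Q (sing (s i))) (hinj.injOn) (by rw [Set.image_univ]; exact hcount)
  exact univ_not_countable this

/-- The combinatorial core. -/
theorem core (hMA : MartinsAxiom) (hCH : (Cardinal.aleph 1 : Cardinal.{0}) < 𝔠) (hX : CSpread (Cp X))
    (hf0 : ∀ β α, β < α → (f α).1 (a β) = 0) (hf1 : ∀ α, 1 / 2 < (f α).1 (a α)) : False := by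
  have hc := ccc f a hX hf0 hf1
  obtain ⟨p, hp⟩ := exists_cond f a hc
  let P' := {q : Pos f a // q ≤ p}
  have hne : Nonempty P' := ⟨⟨p, le_refl p⟩⟩
  have hc' : CCC P' := by
    intro S hS
    have h1 : (Subtype.val '' S).Countable := by
      apply hc
      rintro _ ⟨x, hx, rfl⟩ _ ⟨y, hy, rfl⟩ hxy
      rintro ⟨r, hr1, hr2⟩
      refine hS x hx y hy (fun h => hxy (by rw [h])) ⟨⟨r, le_trans hr1 x.2⟩, hr1, hr2⟩
    exact Set.countable_of_injective_of_countable_image (Subtype.val_injective.injOn) h1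
  let 𝒟 : Set (Set P') := Set.range fun δ : Om => {q : P' | ∃ α ∈ q.1.s, δ < α}
  have hD1 : #𝒟 < 𝔠 := by
    refine lt_of_le_of_lt Cardinal.mk_range_le ?_
    rw [mk_Om]
    exact hCH
  obtain ⟨G, hG, hGD⟩ := hMA P' hc' 𝒟 hD1 (by
    rintro _ ⟨δ, rfl⟩ q
    obtain ⟨r, hr, α, hα, hδ⟩ := hp q.1 q.2 δ
    exact ⟨⟨r, le_trans hr q.2⟩, ⟨α, hα, hδ⟩, hr⟩)
  let H : Set Om := {α | ∃ q ∈ G, α ∈ q.1.s}
  have hH : ¬ H.Countable := by
    apply uncountable_of_unbounded
    intro δ
    obtain ⟨q, hq, α, hα, hδ⟩ := hGD _ ⟨δ, rfl⟩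
    exact ⟨α, ⟨q, hq, hα⟩, hδ⟩
  have hgood : ∀ β ∈ H, ∀ α ∈ H, β < α → (f β).1 (a α) ≤ 1 / 2 := by
    rintro β ⟨q, hq, hβ⟩ α ⟨q', hq', hα⟩ hlt
    obtain ⟨r, hr, hr1, hr2⟩ := hG.directed q hq q' hq'
    exact r.1.good β (hr1 hβ) α (hr2 hα) hlt
  apply hH
  refine no_discrete hX H f (fun α => {h : Cp X | 1 / 2 < h.1 (a α)}) (fun α _ => isOpen_gt _)
    (fun α _ => hf1 α) ?_
  intro β hβ α hα h
  rcases lt_trichotomy β α with hlt | heq | hgt
  · exact absurd (hgood β hβ α hα hlt) (not_le.mpr h)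
  · exact heq
  · exfalso
    have h' : 1 / 2 < (f β).1 (a α) := h
    rw [hf0 α β hgt] at h'
    norm_num at h'

end Main

theorem main (hMA : MartinsAxiom) (hCH : (Cardinal.aleph 1 : Cardinal.{0}) < 𝔠) (X : Type u) [TopologicalSpace X]
    [CompletelyRegularSpace X] (hs : spread (Cp X) = ℵ₀) : tightness X = ℵ₀ := by
  have hX := cSpread_of_spread hs
  apply tightness_eq
  intro A x hx
  by_contra hno
  push Not at hno
  obtain ⟨s, hs⟩ := exists_seq (Y := Cp X × X) {y | y.2 ∈ A ∧ 1 / 2 < y.1.1 y.2}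
    (fun C y => ∀ y' ∈ C, y.1.1 y'.2 = 0) (by
      intro C hCT hC
      have hB : (Prod.snd '' C) ⊆ A := by
        rintro _ ⟨y, hy, rfl⟩
        exact (hCT hy).1
      have hxB := hno _ hB (hC.image _)
      obtain ⟨g, hg, hg0, hg1⟩ := CompletelyRegularSpace.completely_regular x _ isClosed_closure hxB
      let h : Cp X := ⟨fun y => 1 - (g y : ℝ), by
        exact continuous_const.sub (continuous_subtype_val.comp hg)⟩
      have hh : IsOpen {y | 1 / 2 < h.1 y} := isOpen_lt continuous_const h.2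
      have hhx : x ∈ {y | 1 / 2 < h.1 y} := by
        show 1 / 2 < 1 - (g x : ℝ)
        rw [hg0]
        norm_num
      obtain ⟨y, hy1, hy2⟩ := mem_closure_iff.mp hx _ hh hhx
      refine ⟨(h, y), ⟨hy2, hy1⟩, ?_⟩
      intro y' hy'
      show 1 - (g y'.2 : ℝ) = 0
      rw [hg1 (subset_closure ⟨y', hy', rfl⟩)]
      simp)
  refine core (fun i => (s i).1) (fun i => (s i).2) hMA hCH hX ?_ fun α => (hs α).1.2
  intro β α hlt
  exact (hs α).2 (s β) ⟨β, hlt, rfl⟩

end Pool.Agent.W_MP_f6eb07_gt
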